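import Pool.Agent.helper82.T6.SpecW

set_option autoImplicit false

/-!
# T6L, Weyl part: lower bound for tuples in a box and a class, upper bound for the bad tuples

Output: `LBW_stmt`, `TWE_stmt`, `GDT_stmt` (from `LFS_stmt`).  Notation: `S = Y Y₂`, `ϱ = S / N` (relative size), `q = n³ k`,
`H₀ = S^(5/2) / N²` (so `sN³ sK = Y H₀`), `x = √H₀`, `b = (Y₂ / Y)^(1/4)`.  Types of bad tuples at a prime `p`: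
(I) `p ∤ n k`, `p ∣ m, Z`; (II) `p ∤ n k`, `p ∣ g, Z`; (III) `p ∣ n k`, `p ∣ m`; (IV) `p ∣ n k`, `p ∣ g`;
multipliers `(P₁, P₂, P₃, P₄)` `= (p,1,p,1), (1,p,p,1), (p,1,1,p), (1,p,1,p)`: `P₁ ∣ m`, `P₂ ∣ g`, `P₃ ∣ Z`, `P₄ ∣ n k`, `P₁ P₂ = P₃ P₄ = p`.
-/

namespace Pool.Agent.T6

open Finset Pool.Agent.helper3.FT Pool.Agent.T5

/-- the range of the parameters -/
structure Rg (η N Y Y₂ : ℝ) : Prop where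
  r1 : Y ≤ Y₂
  r2 : Y₂ ≤ N ^ η * Y
  r3 : Y * Y₂ ≤ N
  r4 : N ^ (1 - η) ≤ Y * Y₂

/-- the box; its centre is `(n, k, Z) = (sN / 2, sK / 6, 3 Y / 4)`, `m = g = 0`, where `Λ = Y₂ / 12`, `- dis = 3 N / 4` -/
structure BX (N Y Y₂ : ℝ) (t : Tpl) : Prop where
  tt : IsT t
  n1 : 49 / 100 * sN N Y Y₂ < t.1.1
  n2 : (t.1.1 : ℝ) ≤ 1 / 2 * sN N Y Y₂
  k1 : 16 / 100 * sK N Y Y₂ < t.1.2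
  k2 : (t.1.2 : ℝ) ≤ 17 / 100 * sK N Y Y₂
  m1 : |(t.2.1 : ℝ)| ≤ 1 / 1000 * sM N Y Y₂
  g1 : |(t.2.2.1 : ℝ)| ≤ 1 / 1000 * sG N Y Y₂
  z1 : 74 / 100 * Y < t.2.2.2
  z2 : (t.2.2.2 : ℝ) ≤ 76 / 100 * Y

/-- the class of `(n, k, m, g, Z) = (1, 1, 0, 1, 1)` modulo `e` -/
structure CC (e : ℕ) (t : Tpl) : Prop where
  n : (e : ℤ) ∣ (t.1.1 : ℤ) - 1
  k : (e : ℤ) ∣ (t.1.2 : ℤ) - 1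
  m : (e : ℤ) ∣ t.2.1
  g : (e : ℤ) ∣ t.2.2.1 - 1
  z : (e : ℤ) ∣ t.2.2.2 - 1

/-- bad at `p` -/
def BadP (p : ℕ) (t : Tpl) : Prop :=
  (p : ℤ) ∣ t.2.1 * t.2.2.1 ∧ (p ∣ t.1.1 * t.1.2 ∨ (p : ℤ) ∣ t.2.2.2)

/-- LBW: lower bound in the box and the class modulo `e` -/
def LBW_stmt : Prop :=
  ∃ η c : ℝ, 0 < η ∧ 0 < c ∧ ∀ e : ℕ, 1 ≤ e → ∃ C N₀ : ℝ, 1 ≤ C ∧ ∀ N Y Y₂ : ℝ, N₀ ≤ N → Rg η N Y Y₂ →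
    ∀ F : Finset Tpl, (∀ t : Tpl, BX N Y Y₂ t → CC e t → t ∈ F) →
    (c / (e : ℝ) ^ 5 - C * (Y * Y₂ / N) ^ (3 / 2 : ℝ)) * (Y * Y₂) ≤ (F.card : ℝ)

/-- TWE: upper bound for the bad tuples at `p` in the class modulo `e`; `C₀` does not depend on `e` -/
def TWE_stmt : Prop :=
  ∃ η : ℝ, 0 < η ∧ ∀ κ : ℝ, 0 < κ → κ ≤ 1 → ∃ C₀ : ℝ, 1 ≤ C₀ ∧ ∀ e : ℕ, 1 ≤ e → ∃ C N₀ : ℝ, 1 ≤ C ∧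
    ∀ N Y Y₂ : ℝ, N₀ ≤ N → Rg η N Y Y₂ → ∀ p : ℕ, p.Prime → ¬ p ∣ e → (p : ℝ) ≤ N ^ η →
    ∀ F : Finset Tpl, (∀ t ∈ F, Cen κ N Y Y₂ t ∧ CC e t ∧ BadP p t) →
    (F.card : ℝ) ≤ (C₀ / ((p : ℝ) ^ 2 * (e : ℝ) ^ 5) +
      C * (Y * Y₂ / N) ^ (3 / 2 : ℝ) * (p : ℝ) ^ (1 / 4 : ℝ) * (1 + p * (Y * Y₂ / N))) * (Y * Y₂)

/-- GDT (output): many tuples which are not bad at the primes `≤ ϱ ^ (- 11 / 10)` -/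
def GDT_stmt : Prop :=
  ∃ (e₀ : ℕ) (c₁ ϱ₀ : ℝ), 1 ≤ e₀ ∧ 900 ∣ e₀ ∧ 16 ∣ e₀ ∧ 0 < c₁ ∧ 0 < ϱ₀ ∧ ϱ₀ ≤ 1 ∧
    ∀ ϱ : ℝ, 0 < ϱ → ϱ ≤ ϱ₀ → ∃ N₀ : ℝ, ∀ N : ℝ, N₀ ≤ N → ∃ F : Finset Tpl,
      (∀ t ∈ F, BX N (ϱ * √N) (√N) t ∧ CC e₀ t ∧
        ∀ p : ℕ, p.Prime → (p : ℝ) ≤ ϱ ^ (-(11 / 10 : ℝ)) → ¬ BadP p t) ∧
      c₁ * (ϱ * N) ≤ (F.card : ℝ)

/-! ## Rows -/

/-- **EMI** (short-medium; see AKR, T5, for the Jackson kernel).  A band-limited minorant of an arc, with weights.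
Proof.  `H = T / 2` (natural division): `T ≥ 10`, `2 H ≤ T`, `H ≥ 9 T / 20`, `H l ≥ 2`.  `F(x) = (1/H) |∑_{j<H} e(j x)|² = ∑_{|h|<H} (1 - |h|/H) e(h x)`, real, `0 ≤ F ≤ H`.
`G = (1 - cos π l) F² - (1/H) F (1 - cos (2 π H x))`.  As `(1 - cos 2 π x) F = (1/H) (1 - cos 2 π H x)` (`|1 - e(x)|² |∑ e(jx)|² = |1 - e(H x)|²`), `G = F² (cos 2 π x - cos π l)`: `G ≤ 0` if `nd x > l/2`, and always `G ≤ (1 - cos π l) F² ≤ 5 l² H²`.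
`2 l² ≤ 1 - cos π l ≤ 5 l²`.  `F² = (1/H²) ∑ e((j₁ - j₂ + j₃ - j₄) x)`: the mean is `(2 H² + 1)/(3 H) ≥ H/2` (or by Cauchy: the number of `j₁ + j₃ = j₂ + j₄` is at least `H⁴/(2H)`), and the coefficient of every frequency is at most `H` (given `j₁, j₂, j₃` there is at most one `j₄`).
`F (1 - cos 2 π H x) = F - F e(H x)/2 - F e(-H x)/2`: mean `1`, coefficients at most `2`.  With `S_h = ∑ w e(h x)`, `‖S_{-h}‖ = ‖S_h‖`, `Σ' = ∑_{1 ≤ h < 2H} ‖S_h‖`: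
`∑ w G ≥ 2 l² (H/2) ∑ w - 10 l² H Σ' - (1/H)(∑ w + 4 Σ') ≥ (3/4) l² H ∑ w - 11 l² H Σ'` (`1/H ≤ l² H/4`), and `∑ w G ≤ 5 l² H² ∑_{arc} w`.  Divide by `5 l² H²`. -/
def EMI_stmt : Prop :=
  ∀ {ι : Type} (s : Finset ι) (w x : ι → ℝ) (T : ℕ) (l : ℝ), 0 < l → l ≤ 1 / 2 → 5 ≤ T * l → (∀ i ∈ s, 0 ≤ w i) →
    1 / (4 * T) * ∑ i ∈ s, w i ≤ ∑ i ∈ s.filter (fun i => nd (x i) ≤ l / 2), w i +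
      7 / T * ∑ h ∈ Ico 1 T, ‖∑ i ∈ s, (w i : ℂ) * e (h * x i)‖

/-- **ECB** (short-medium; from RE1, RE2 of T5).  Every point `(m', g')` gives tuples.
Proof.  `n ≡ k ≡ 1` modulo `e`, so `n` is coprime to `k e`.  RE1 with `q₁ = q₂ = r = 1`, `s = e`; `ResG n k 1 1 1 e` implies `ResG n k 1 1 1 1`.  RE2 with `c = 1`, `c' = 0` gives `c₀`; `m = e m'`, `g = 1 + e g'`, `z₁ = α m² + β m g + γ g² + c₀`.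
For `z = z₁ + n³ k e z'`: `n³ ∣ z k⁴ + m g k² - g² n²` and `k e ∣ z n² - m² - k`: `IsT` and `z n² ≡ m² + k`, i.e. `z ≡ 1` modulo `e`.  `c₃ = β e/(n³ k e)`, `c₄ = 2 γ e/(n³ k e)`, `c₅ = (γ + c₀)/(n³ k e)`. -/
def ECB_stmt : Prop :=
  ∀ n k e : ℕ, 1 ≤ n → 1 ≤ k → 1 ≤ e → Nat.Coprime n k → (e : ℤ) ∣ (n : ℤ) - 1 → (e : ℤ) ∣ (k : ℤ) - 1 →
    ∃ α β γ : ℤ, ResG n k 1 1 1 1 α β γ ∧ ∃ c₃ c₄ c₅ : ℝ, ∀ m' g' : ℤ, ∃ z₁ : ℤ,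
      (z₁ : ℝ) / ((n : ℝ) ^ 3 * k * e) = (e : ℝ) / ((n : ℝ) ^ 3 * k) * (α * m' ^ 2 + β * m' * g' + γ * g' ^ 2) + c₃ * m' + c₄ * g' + c₅ ∧
      ∀ z' : ℤ, IsT ((n, k), (e * m', 1 + e * g', z₁ + (n : ℤ) ^ 3 * k * e * z')) ∧
        CC e ((n, k), (e * m', 1 + e * g', z₁ + (n : ℤ) ^ 3 * k * e * z'))

/-- the residues of a type -/
structure RT (n k : ℕ) (P₁ P₂ P₃ : ℕ) (a : ℤ × ℤ × ℤ) : Prop where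
  ex : ∃ α β γ : ℤ, ResG n k 1 1 1 1 α β γ ∧ ((n : ℤ) ^ 3 * k) ∣ P₃ * a.1 - P₁ ^ 2 * α ∧
    ((n : ℤ) ^ 3 * k) ∣ P₃ * a.2.1 - P₁ * P₂ * β ∧ ((n : ℤ) ^ 3 * k) ∣ P₃ * a.2.2 - P₂ ^ 2 * γ

/-- **ECA** (short-medium; from RE1, RE2, TR of T5).  The tuples of a type as one congruence.
Proof.  As ECB: `α, β, γ, c₀` for `s = e`, and for a tuple in the class `CC e`: `R k = Z n² - m²` gives `RR t ≡ 1` modulo `e`, so by RE2 `Z ≡ α m² + β m g + γ g² + c₀` modulo `Q = n³ k e`.  `P̄` with `P₃ P̄ ≡ 1` modulo `Q`; `a = (P̄ P₁² α, P̄ P₁ P₂ β, P̄ P₂² γ)`.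
`m = P₁ e m'` (`P₁, e` coprime), `g = g₀ + P₂ e g'` where `g₀ ∈ [0, P₂ e)` is the class `≡ 0 (P₂)`, `≡ 1 (e)`, `Z = P₃ z`: `z ≡ P̄ (α m² + β m g + γ g² + c₀)` modulo `Q`.  Expand and divide by `Q`. -/
def ECA_stmt : Prop :=
  ∀ n k e P₁ P₂ P₃ : ℕ, 1 ≤ n → 1 ≤ k → 1 ≤ e → 1 ≤ P₁ → 1 ≤ P₂ → 1 ≤ P₃ → Nat.Coprime n k → (e : ℤ) ∣ (n : ℤ) - 1 → (e : ℤ) ∣ (k : ℤ) - 1 →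
    Nat.Coprime P₁ e → Nat.Coprime P₂ e → Nat.Coprime P₃ (n * k * e) →
    ∃ a : ℤ × ℤ × ℤ, RT n k P₁ P₂ P₃ a ∧ ∃ (g₀ : ℤ) (c₃ c₄ c₅ : ℝ), 0 ≤ g₀ ∧ g₀ < P₂ * e ∧
      ∀ t : Tpl, IsT t → t.1 = (n, k) → CC e t → (P₁ : ℤ) ∣ t.2.1 → (P₂ : ℤ) ∣ t.2.2.1 → (P₃ : ℤ) ∣ t.2.2.2 →
        ∃ m' g' z' : ℤ, t.2.1 = P₁ * e * m' ∧ t.2.2.1 = g₀ + P₂ * e * g' ∧
          (t.2.2.2 : ℝ) / (P₃ * ((n : ℝ) ^ 3 * k * e)) =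
            (e : ℝ) / ((n : ℝ) ^ 3 * k) * (a.1 * m' ^ 2 + a.2.1 * m' * g' + a.2.2 * g' ^ 2) + c₃ * m' + c₄ * g' + c₅ + z'

/-- the sum of the near points for one pair -/
noncomputable def NS (L L' T e n k : ℕ) (a : ℤ × ℤ × ℤ) : ℝ :=
  ∑ h ∈ Ico 1 T, √((nearPts L L' ((h * e : ℕ) * a.1 / ((n : ℝ) ^ 3 * k)) ((h * e : ℕ) * a.2.1 / ((n : ℝ) ^ 3 * k))
    ((h * e : ℕ) * a.2.2 / ((n : ℝ) ^ 3 * k))).card : ℝ)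

/-- **EPU** (short-medium; from ECA, WFJ, WWY; as WPC).  Upper bound for one pair.
Proof.  As WPC: `t ↦ (m', g')` is injective on `F` (`Z` is determined modulo `P₃ n³ k e ≥ 4 V`); `|m'| ≤ L`, `|g'| ≤ L'`; `x = ` right hand side minus `V/(2 P₃ Q)`: `nd x ≤ V/(2 P₃ Q) ≤ 1/(8 T)`. -/
def EPU_stmt : Prop :=
  ∃ C : ℝ, 1 ≤ C ∧ ∀ n k e P₁ P₂ P₃ : ℕ, 1 ≤ n → 1 ≤ k → 1 ≤ e → 1 ≤ P₁ → 1 ≤ P₂ → 1 ≤ P₃ → Nat.Coprime n k →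
    (e : ℤ) ∣ (n : ℤ) - 1 → (e : ℤ) ∣ (k : ℤ) - 1 → Nat.Coprime P₁ e → Nat.Coprime P₂ e → Nat.Coprime P₃ (n * k * e) →
    ∃ a : ℤ × ℤ × ℤ, RT n k P₁ P₂ P₃ a ∧ ∀ (L L' T : ℕ) (V : ℝ) (F : Finset Tpl), 1 ≤ L → 1 ≤ L' → 1 ≤ T → 0 < V →
      4 * T * V ≤ P₃ * ((n : ℝ) ^ 3 * k * e) → (∀ t ∈ F, IsT t ∧ t.1 = (n, k) ∧ CC e t ∧ (P₁ : ℤ) ∣ t.2.1 ∧ (P₂ : ℤ) ∣ t.2.2.1 ∧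
        (P₃ : ℤ) ∣ t.2.2.2 ∧ |(t.2.1 : ℝ)| + P₁ * e ≤ P₁ * e * (L : ℝ) ∧ |(t.2.2.1 : ℝ)| + P₂ * e ≤ P₂ * e * (L' : ℝ) ∧
        0 < t.2.2.2 ∧ (t.2.2.2 : ℝ) ≤ V) →
      (F.card : ℝ) ≤ C / T * (L * L' + √(L * L' : ℝ) * NS L L' T e n k a)

/-- **EPL** (medium; from ECB, EMI, WWY).  Lower bound for one pair.
Proof.  Index set `(m', g') ∈ [-2L, 2L] × [-2L', 2L']`, weights `tw L m' tw L' g'` (`0 ≤ .. ≤ 9`, sum `(2L+1)² (2L'+1)²/(L L') ≥ L L'`), `x = φ(m', g') - (z₀ + V/2)/Q`, `Q = n³ k e`, `l = V/(2Q)` (`l ≤ 1/2`, `T l ≥ 5`).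
If `nd x ≤ l/2 = V/(4 Q)` there is `z'` with `|z₁ + Q z' - z₀ - V/2| ≤ V/4`: ECB gives a tuple in `F`; `(m', g') ↦ t` is injective; so the sum over the arc is at most `9 #F`.  EMI; the exponential sums are `TS` (up to a factor of absolute value 1) with `c = (h e α/(n³k), ..)`: WWY. -/
def EPL_stmt : Prop :=
  ∃ C : ℝ, 1 ≤ C ∧ ∀ n k e : ℕ, 1 ≤ n → 1 ≤ k → 1 ≤ e → Nat.Coprime n k → (e : ℤ) ∣ (n : ℤ) - 1 → (e : ℤ) ∣ (k : ℤ) - 1 →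
    ∃ a : ℤ × ℤ × ℤ, RT n k 1 1 1 a ∧ ∀ (L L' T : ℕ) (z₀ V : ℝ) (F : Finset Tpl), 1 ≤ L → 1 ≤ L' → 1 ≤ T → 0 < V →
      10 * ((n : ℝ) ^ 3 * k * e) ≤ T * V → V ≤ (n : ℝ) ^ 3 * k * e →
      (∀ t : Tpl, IsT t → t.1 = (n, k) → CC e t → |(t.2.1 : ℝ)| ≤ e * (2 * L : ℝ) → |(t.2.2.1 : ℝ)| ≤ e * (2 * L' + 1 : ℝ) →
        z₀ < t.2.2.2 → (t.2.2.2 : ℝ) ≤ z₀ + V → t ∈ F) →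
      (L : ℝ) * L' / (C * T) ≤ F.card + C / T * (√(L * L' : ℝ) * NS L L' T e n k a)

/-- **END** (medium; copy of the proof of WNR with the multipliers; from WDM, GP, GR, N2, N4).  Near points of a type.
Proof.  `q = n³ k`.  For a near point `(u,v)`: `ξ = h (2 a₀ u + a₁ v) - q round(..)`, `Ξ = h (a₁ u + 2 a₂ v) - q round(..)`, `|ξ| ≤ q/M`, `|Ξ| ≤ q/G`.  The set of the `(u,v,ξ,Ξ)` is in the kernel of a surjective map `ℤ⁴ → (ℤ/q)²`: if it contains four independent vectors: GP with `S = (4M, 4G, q/M, q/G)`: at most `11⁴ · 16`.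
Otherwise: `u₁ = P₁ u`, `v₁ = P₂ v`, `ξ₁ = P₂ ξ`, `Ξ₁ = P₁ Ξ`, `h₁ = h P₄`.  `P₃ (P₂ ξ - h₁ (2 α u₁ + β v₁)) ≡ P₂ h P₁ (2 α u₁ + β v₁) - h P₁ P₂ (..) = 0` modulo `q` (`P₃ a₀ ≡ P₁² α`, `P₃ a₁ ≡ P₁ P₂ β`, `P₃ P₄ = P₁ P₂`) and `P₃` is a unit: `q ∣ ξ₁ - h₁ (2 α u₁ + β v₁)`; in the same way
`q ∣ Ξ₁ - h₁ (β u₁ + 2 γ v₁)`.  WDM (with `h₁, u₁, v₁, ξ₁, Ξ₁`) gives an injective `ℚ`-linear map to `(A,A',B,X)`, in `InG δ r` (`δ ∣ h`), of norm `≤ ρ` by the four size hypotheses.  GR with `lam = lamb b δ r`. -/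
def END_stmt : Prop :=
  ∀ (n k M G h δ r P₁ P₂ P₃ P₄ : ℕ) (a : ℤ × ℤ × ℤ) (b ρ : ℝ), 1 ≤ n → 1 ≤ k → 1 ≤ M → 1 ≤ G → 1 ≤ h → 1 ≤ P₁ → 1 ≤ P₂ → 1 ≤ P₃ → 1 ≤ P₄ →
    P₁ * P₂ = P₃ * P₄ → Nat.Coprime n k → Nat.Coprime P₃ (n * k) → RT n k P₁ P₂ P₃ a → 1 ≤ b → 0 ≤ ρ →
    1 ≤ δ → δ ∣ h → Nat.Coprime δ (5 * (n * k)) → (δ : ℤ) ∣ (r : ℤ) * k - n →
    P₂ * (4 * ((h : ℝ) * P₄) * G / (n : ℝ) ^ 3 + (k : ℝ) ^ 3 / M) ≤ ρ * b ^ 5 →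
    P₁ * (4 * ((h : ℝ) * P₄) * M / (n : ℝ) ^ 3 + (k : ℝ) ^ 3 / G) + P₂ * (2 * (n : ℝ) ^ 2 * k / M) ≤ ρ * b →
    2 * (n : ℝ) / k * (P₁ * (4 * ((h : ℝ) * P₄) * M / (n : ℝ) ^ 3 + (k : ℝ) ^ 3 / G) + P₂ * (2 * (n : ℝ) ^ 2 * k / M)) +
      P₂ * (5 * (n : ℝ) ^ 3 / M) ≤ ρ / b →
    P₁ * ((n : ℝ) ^ 3 / G) ≤ ρ / b ^ 5 →
    ((nearPts M G (h * a.1 / ((n : ℝ) ^ 3 * k)) (h * a.2.1 / ((n : ℝ) ^ 3 * k)) (h * a.2.2 / ((n : ℝ) ^ 3 * k))).card : ℝ) ≤ 234256 ∨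
    ((nearPts M G (h * a.1 / ((n : ℝ) ^ 3 * k)) (h * a.2.1 / ((n : ℝ) ^ 3 * k)) (h * a.2.2 / ((n : ℝ) ^ 3 * k))).card : ℝ) ≤
      (1 + 6 * ρ / lamb b δ r) ^ 3

/-- the sizes of one block and one type -/
structure EB (N K L L' T e P₁ P₂ P₄ : ℕ) (b ρ : ℝ) : Prop where
  N1 : 1 ≤ N
  K1 : 1 ≤ K
  L1 : 1 ≤ L
  L1' : 1 ≤ L'
  T1 : 1 ≤ T
  b1 : 1 ≤ b
  ρ0 : 0 ≤ ρ
  s1 : P₂ * (32 * ((T : ℝ) * e * P₄) * L' / (N : ℝ) ^ 3 + (K : ℝ) ^ 3 / L) ≤ ρ * b ^ 5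
  s2 : P₁ * (32 * ((T : ℝ) * e * P₄) * L / (N : ℝ) ^ 3 + (K : ℝ) ^ 3 / L') + P₂ * (2 * (N : ℝ) ^ 2 * K / L) ≤ ρ * b
  s3 : 4 * (N : ℝ) / K * (P₁ * (32 * ((T : ℝ) * e * P₄) * L / (N : ℝ) ^ 3 + (K : ℝ) ^ 3 / L') + P₂ * (2 * (N : ℝ) ^ 2 * K / L)) +
    P₂ * (5 * (N : ℝ) ^ 3 / L) ≤ ρ / b
  s4 : P₁ * ((N : ℝ) ^ 3 / L') ≤ ρ / b ^ 5

/-- **ESN** (medium; from END, WSM, WDL, `pairs_card`; as WPR).  The near points of one block.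
Proof.  For `p = (n,k) ∈ W` and `1 ≤ h < T`: END for the frequency `h e`, `δ = dl y₀ h (n k)` (divides `h`, coprime to `5 n k` as `y₀ ≥ 5`), `r = rt δ n k` (WDL); the sizes follow from `EB` (`N < 2 n`, `K < 2 k`, `h e < T e`).
`√near ≤ 484 + (1 + 6 ρ/lamb)^(3/2) ≤ C (1 + (ρ/lamb)^(3/2))`; `∑ 1 ≤ T #pairs ≤ T 2^ω(y) N K/y`; WSM. -/
def ESN_stmt : Prop :=
  ∀ (y₀ B : ℕ) (C₀ τ : ℝ), 5 ≤ y₀ → 1 ≤ C₀ → 0 < τ → τ ≤ 1 / 100 →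
    (∀ b : ℝ, 1 ≤ b → ∀ u : ℕ, ∑ p ∈ PR y₀ u, (√(2 ^ u) / lamb b p.1 p.2) ^ (3 / 2 : ℝ) ≤
      C₀ * (1 + b ^ B * (2 : ℝ) ^ (-(τ * u))) * 4 ^ u) →
    ∃ C : ℝ, 1 ≤ C ∧ ∀ (N K L L' T e P₁ P₂ P₃ P₄ y : ℕ) (b ρ : ℝ), EB N K L L' T e P₁ P₂ P₄ b ρ → 1 ≤ e → Squarefree y →
      1 ≤ P₁ → 1 ≤ P₂ → 1 ≤ P₃ → 1 ≤ P₄ → P₁ * P₂ = P₃ * P₄ → ∀ (W : Finset (ℕ × ℕ)) (a : ℕ × ℕ → ℤ × ℤ × ℤ), W ⊆ pairs N K y →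
      (∀ p ∈ W, Nat.Coprime P₃ (p.1 * p.2) ∧ RT p.1 p.2 P₁ P₂ P₃ (a p)) →
      ∑ p ∈ W, NS L L' T e p.1 p.2 (a p) ≤ C ^ (y.primeFactors.card + 1) *
        (T * (N * K / y) + ρ ^ (3 / 2 : ℝ) * ((T : ℝ) ^ (5 / 4 : ℝ) + N * K * (T : ℝ) ^ (1 / 4 : ℝ) / y) * (1 + b ^ B * (T : ℝ) ^ (-τ)))

open Classical in
/-- **EPN** (short).  Pairs in the class `(1, 1)` modulo `e` with `y ∣ n k`.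
Proof.  `y = 1`: at most `(N/e + 1)(K/e + 1) ≤ 4 N K/e²`.  `y` prime: `y ∣ n` or `y ∣ k`; `n ≡ 1 (e)`, `n ≡ 0 (y)` is one class modulo `e y`: `(N/(e y) + 1)(K/e + 1) ≤ 4 N K/(e² y)`, twice. -/
def EPN_stmt : Prop :=
  ∀ N K e y : ℕ, 1 ≤ e → (y = 1 ∨ y.Prime) → Nat.Coprime y e → e * y ≤ N → e * y ≤ K →
    (((pairs N K y).filter (fun p => (e : ℤ) ∣ (p.1 : ℤ) - 1 ∧ (e : ℤ) ∣ (p.2 : ℤ) - 1)).card : ℝ) ≤ 8 * ((N : ℝ) * K) / ((e : ℝ) ^ 2 * y)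

/-- **EPC** (short-medium; from CPS of T5).  Lower bound for the coprime pairs of the box in the class.
Proof.  CPS with `a₀ = 49/100`, `b₀ = 1/2`, `a₁ = 16/100`, `b₁ = 17/100`, `c₀ = c₁ = 1` for the exact set `W' ⊆ W` (finite); the main term is at least `2 c'/e²` (`∏ (1 - 1/p²) ≤ 1`), `ε = c'/e²`: `X₁² ∑ 1/(n³ k) ≥ c'/e²`, and every term is at most `1/((a₀ X₁)³ a₁ X₂)`. -/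
def EPC_stmt : Prop :=
  ∃ c : ℝ, 0 < c ∧ ∀ e : ℕ, 1 ≤ e → ∃ X₀ : ℝ, ∀ X₁ X₂ : ℝ, X₀ ≤ X₁ → X₀ ≤ X₂ → ∀ W : Finset (ℕ × ℕ),
    (∀ n k : ℕ, 49 / 100 * X₁ < n → (n : ℝ) ≤ 1 / 2 * X₁ → 16 / 100 * X₂ < k → (k : ℝ) ≤ 17 / 100 * X₂ → Nat.Coprime n k →
      (e : ℤ) ∣ (n : ℤ) - 1 → (e : ℤ) ∣ (k : ℤ) - 1 → (n, k) ∈ W) →
    c / (e : ℝ) ^ 2 * (X₁ * X₂) ≤ (W.card : ℝ)

/-- **ESZ** (short, numerical).  All the sizes tend to infinity.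
Proof.  `Y² ≥ N^(-η) Y Y₂ ≥ N^(1 - 2η)`, `η = 1/100`; `Y₂ ≥ Y ≥ N^(0.49)`; `sN, sK ≥ N^(0.2)`, `sM, sG ≥ N^(0.4)` for large `N`. -/
def ESZ_stmt : Prop :=
  ∀ X : ℝ, ∃ N₀ : ℝ, ∀ N Y Y₂ : ℝ, N₀ ≤ N → Rg (1 / 100) N Y Y₂ →
    1 ≤ N ∧ X ≤ Y ∧ X ≤ Y₂ ∧ X ≤ sN N Y Y₂ ∧ X ≤ sK N Y Y₂ ∧ X ≤ sM N Y Y₂ ∧ X ≤ sG N Y Y₂

/-- **ENU** (medium, numerical; as WNU with `d = 1` and the multipliers).  Sizes for the upper bound.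
Proof.  `η = min (τ/(100 (B+1))) (1/100)`.  `b = (Y₂/Y)^(1/4)`, `H₀ = S^(5/2)/N²`, `x = √H₀`; at the scale `N`: `sN³ sK = Y H₀`, `x b⁵ = sK³/sM = H₀ sG/sN³`, `x b = sN² sK/sM = H₀ sM/sN³ = sK³/sG`, `x/b = sN³/sM`, `x/b⁵ = sN³/sG`, `(sN/sK) b = 1/b`, `sM sG = S²/N`,
`sN sK = S^(3/2)/N = H₀ N/S`.  `L = ⌈(6/κ) sM/(P₁ e)⌉ + 1`, `L' = ⌈8 sG/(P₂ e)⌉ + 1`, `T = ⌊P₃ N₁³ K₁ e/(64 Y)⌋ ≍ H₀ P₃ e`, `ρ = C p e x`.  E.g. `P₂ T e P₄ L'/N₁³ ≤ C P₂ (H₀ P₃ P₄ e²) sG/(P₂ e sN³) = C p e x b⁵`, `P₂ K₁³/L ≤ C P₂ P₁ e sK³/sM`.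
Main: `N₁K₁ L L'/T ≤ C₀ sN sK sM sG/(p e² H₀ P₃ e)`, `sN sK sM sG = S H₀`.  Error: `√(L L') ≤ C √(sM sG)/(e √p)`, `ρ^(3/2) ≤ C (p P₄ e T)^(3/4)`, `T + N₁K₁/P₄ ≤ C e (N₁K₁/P₄)(1 + p S/N)`, `√(sM sG) sN sK = S (S/N)^(3/2)`: total `≤ C(e) S (S/N)^(3/2) p^(1/4) P₄^(-1/4) (1 + p S/N)`.
`b^B ≤ N^(η B/4) ≤ T^τ` as `T ≥ N^(1/4)`.  (`T^(-τ) b^B ≤ 1`.) -/
def ENU_stmt : Prop :=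
  ∀ (B : ℕ) (τ : ℝ), 0 < τ → ∃ η : ℝ, 0 < η ∧ η ≤ 1 / 100 ∧ ∀ κ : ℝ, 0 < κ → κ ≤ 1 → ∃ C₀ : ℝ, 1 ≤ C₀ ∧ ∀ e : ℕ, 1 ≤ e →
    ∃ C₁ N₀ : ℝ, 1 ≤ C₁ ∧ ∀ N Y Y₂ : ℝ, N₀ ≤ N → Rg η N Y Y₂ → ∀ p : ℕ, 1 ≤ p → (p : ℝ) ≤ N ^ η →
    ∀ P₁ P₂ P₃ P₄ : ℕ, P₁ * P₂ = p → P₃ * P₄ = p → ∀ N₁ K₁ : ℕ, Blk (κ ^ 2) 6 N Y Y₂ N₁ K₁ →
    e * p ≤ N₁ ∧ e * p ≤ K₁ ∧ ∃ (L L' T : ℕ) (b ρ : ℝ), EB N₁ K₁ L L' T e P₁ P₂ P₄ b ρ ∧ b ^ B ≤ (T : ℝ) ^ τ ∧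
      64 * T * Y ≤ P₃ * ((N₁ : ℝ) ^ 3 * K₁ * e) ∧
      6 / κ * sM N Y Y₂ + P₁ * e ≤ P₁ * e * (L : ℝ) ∧ 8 * sG N Y Y₂ + P₂ * e ≤ P₂ * e * (L' : ℝ) ∧
      (N₁ : ℝ) * K₁ * (L * L' / T) ≤ C₀ * (Y * Y₂ / (p * P₃ * (e : ℝ) ^ 3)) ∧
      1 / (T : ℝ) * (√(L * L' : ℝ) * (T * (N₁ * K₁ / P₄) + ρ ^ (3 / 2 : ℝ) * ((T : ℝ) ^ (5 / 4 : ℝ) + N₁ * K₁ * (T : ℝ) ^ (1 / 4 : ℝ) / P₄))) ≤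
        C₁ * ((Y * Y₂) * ((Y * Y₂ / N) ^ (3 / 2 : ℝ) * (p : ℝ) ^ (1 / 4 : ℝ) * (1 + p * (Y * Y₂ / N))))

/-- **ENL** (medium, numerical; as ENU with all multipliers 1).  Sizes for the lower bound.
Proof.  `N₁ = ⌊sN/2⌋`, `K₁ = ⌊17 sK/100⌋`, `V = Y/50`, `L = ⌊sM/(4000 e)⌋`, `L' = ⌊sG/(4000 e)⌋`, `T = ⌈500 N₁³ K₁ e/Y⌉ ≍ H₀ e`, `ρ = C e x`. -/
def ENL_stmt : Prop :=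
  ∀ (B : ℕ) (τ : ℝ), 0 < τ → ∃ η c : ℝ, 0 < η ∧ η ≤ 1 / 100 ∧ 0 < c ∧ ∀ e : ℕ, 1 ≤ e → ∃ C₁ N₀ : ℝ, 1 ≤ C₁ ∧
    ∀ N Y Y₂ : ℝ, N₀ ≤ N → Rg η N Y Y₂ → ∃ (N₁ K₁ L L' T : ℕ) (b ρ : ℝ), (N₁ : ℝ) ≤ 1 / 2 * sN N Y Y₂ ∧ 1 / 2 * sN N Y Y₂ < N₁ + 1 ∧
      (K₁ : ℝ) ≤ 17 / 100 * sK N Y Y₂ ∧ 17 / 100 * sK N Y Y₂ < K₁ + 1 ∧ EB N₁ K₁ L L' T e 1 1 1 b ρ ∧ b ^ B ≤ (T : ℝ) ^ τ ∧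
      10 * ((N₁ : ℝ) ^ 3 * K₁ * e) ≤ T * (Y / 50) ∧ 16 * (Y / 50) ≤ (N₁ : ℝ) ^ 3 * K₁ * e ∧
      e * (2 * L : ℝ) ≤ 1 / 1000 * sM N Y Y₂ ∧ e * (2 * L' + 1 : ℝ) ≤ 1 / 1000 * sG N Y Y₂ ∧
      c * (Y * Y₂) / (e : ℝ) ^ 3 ≤ sN N Y Y₂ * sK N Y Y₂ * (L * L' / T) ∧
      1 / (T : ℝ) * (√(L * L' : ℝ) * (T * (N₁ * K₁) + ρ ^ (3 / 2 : ℝ) * ((T : ℝ) ^ (5 / 4 : ℝ) + N₁ * K₁ * (T : ℝ) ^ (1 / 4 : ℝ)))) ≤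
        C₁ * ((Y * Y₂) * (Y * Y₂ / N) ^ (3 / 2 : ℝ))

open Classical in
/-- **EUB** (medium; from EPU, ESN, EPN, ESZ, ENU, CZ, CBR of T5).  The bad tuples.
Proof.  Constants: LFS gives `y₀, B, C₀, τ`; ENU for `B, τ`.  `η ≤ 1/100`: ESZ with `X = 1/κ²` gives the hypotheses of CBR, CZ.  Split `F` into the four types (`p ∣ m g`: `p ∣ m` or `p ∣ g`; `p ∣ n k`, or `p ∤ n k` and `p ∣ Z`), with `(P₁,P₂,P₃,P₄)` as in the head of the file, `y = P₄`.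
One block `N₁, K₁` of CBR and one type: `W = (pairs N₁ K₁ P₄)` filtered by `e ∣ n - 1`, `e ∣ k - 1`, `Coprime P₃ (n k)`; the tuples with `t.1 = p` are counted by EPU with `V = Y` (sizes by CZ: `|m| ≤ (6/κ) sM`, `|g| ≤ 8 sG`, `0 < Z ≤ Y`; `64 T Y ≤ P₃ N₁³K₁ e < 16 P₃ n³ k e`).
Sum over `W`: `(C/T) (#W L L' + √(L L') ∑_W NS)`, `#W ≤ 8 N₁K₁/(e² P₄)` (EPN; `P₄ ∈ {1, p}` is coprime to `e`), ESN (`(1 + b^B T^(-τ)) ≤ 2`, `ω(P₄) ≤ 1`), ENU.  The constant of the main term is `C · 8 · C₀(κ) ·` (CBR), independent of `e`. -/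
def EUB_stmt : Prop := LFS_stmt → TWE_stmt

/-- **ELB** (medium; from EPL, ESN, EPC, ESZ, ENL).  The lower bound.
Proof.  `W` = the coprime pairs of the box in the class (finite; `W ⊆ pairs N₁ K₁ 1`: `N₁ < 2n` as `2n > 98/100 sN`); EPC for `X₁ = sN`, `X₂ = sK`.  EPL for each `p ∈ W` with `z₀ = 74 Y/100`, `V = Y/50` (`n³ k ≤ N₁³ K₁ < 16 n³ k`), `F_p = F` filtered by `t.1 = p`: the tuples in question are in `BX` and `CC`.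
`#F ≥ ∑_W #F_p ≥ #W L L'/(C T) - (C/T) √(L L') ∑_W NS`; ESN (`y = 1`), ENL. -/
def ELB_stmt : Prop := LFS_stmt → LBW_stmt

/-- **EGD** (medium; from LBW, TWE).  The output.
Proof.  `c, C₀` (for `κ = 1/100`, EBX) absolute.  `w₀ ≥ 8 C₀/c`, `w₀ ≥ 5`, `e₀ = (w₀!)⁴`: for `p ≤ w₀` a tuple of `CC e₀` is not bad (`n, k, Z ≡ 1` modulo `p`).  `w ≥ 8 C₀ e₀⁵/c`.  `F` = all tuples of `BX`, `CC e₀` (a finite set) without the tuples bad at some prime `p ≤ ϱ^(-11/10)`.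
`w₀ < p ≤ w`: TWE with `e₀`: `∑ ≤ (C₀/(w₀ e₀⁵) + C(e₀) ϱ^(3/2) 2 w³) ϱ N`.  `w < p ≤ X = ϱ^(-11/10)`: TWE with `e = 1` (`CC 1` is trivial): `∑ ≤ (C₀/w + C(1) ϱ^(3/2) (X^(5/4) + ϱ X^(9/4))) ϱ N`, and `ϱ^(3/2) X^(5/4) = ϱ^(1/8)`, `ϱ^(5/2) X^(9/4) = ϱ^(1/40)`.
So for `ϱ` small `#F ≥ (c/(2 e₀⁵)) ϱ N`.  `N` large: `Rg η N (ϱ √N) √N`, `X ≤ N^η`. -/
def EGD_stmt : Prop := LBW_stmt → TWE_stmt → GDT_stmt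

/-- **EBX** (short-medium).  The box is central.
Proof.  Scaled coordinates `n = ν sN`, `k = κ sK`, `m = μ sM`, `g = γ sG`, `Z = ζ Y`: `Λ = Y₂ (μ γ + ζ κ²)/ν²`, `- dis = N (4 ζ² λ κ² - (ζ γ - λ μ)²)/(ν κ)²` (`λ = Λ/Y₂`; `√Y sN = sM`, `Y sK = √Y₂ sM`, `√Y₂ sK = sG`, `Y₂ sN = √Y sG`; see TA3 of T5).  In the box `0.075 ≤ λ ≤ 0.092`, `0.65 ≤ - dis/N ≤ 0.9`. -/
def EBX_stmt : Prop :=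
  ∀ (N Y Y₂ : ℝ) (t : Tpl), 1 ≤ N → 1 ≤ Y → 1 ≤ Y₂ → BX N Y Y₂ t → Cen (1 / 100) N Y Y₂ t ∧ (lam t : ℝ) ≤ Y₂ / 10

/-- **EDI** (short-medium; from TR of T5).  Congruences and bad primes.
Proof.  (1) `Λ n² = m g + Z k²`: `Λ ≡ 1`; `dis (n k)² = (Z g - Λ m)² - 4 Z² Λ k²`: `dis ≡ 1 - 4`.  (2) `p² ∣ dis`.  If `p ∣ n k`: modulo `p`: for `p ∣ k` `Λ n² ≡ m g`, `Z n² ≡ m²` (`p ∣ Z` or `p ∣ Λ` gives `p ∣ m g`); for `p ∣ n`: `m g ≡ - Z k²`, `g² ≡ Λ k²`.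
If `p ∤ n k`: `p = Zg - Λm`-, `Zg + Λm`-relations: `dis n² = tr² - 4 Z² Λ`, `dis k² = tr'² - 4 Z Λ²`, `k tr = Zg - Λm`, `n tr' = Zg + Λm`: `p ∣ tr, tr'`, so `p ∣ Z g` and `p ∣ Λ m` (`p ≠ 2`).  `p ∣ Λ`, `p ∤ Z` would give `p ∣ g` and `p ∣ Z k²`; so `p ∣ Z`, `m g ≡ Λ n²`, and `p ∣ Λ m`: `p ∣ m g`. -/
def EDI_stmt : Prop :=
  (∀ (e : ℕ) (t : Tpl), IsT t → CC e t → (e : ℤ) ∣ dis t + 3) ∧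
  ∀ (p : ℕ) (t : Tpl), p.Prime → 2 < p → IsT t → (p : ℤ) ^ 2 ∣ dis t → (p : ℤ) ∣ t.2.2.2 * lam t → BadP p t

end Pool.Agent.T6
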