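import Pool.Agent.helper95.T6.AllE1
import Pool.Agent.helper57.T6.ENU

set_option autoImplicit false

/-! # T6L, block E closed -/

namespace Pool.Agent.T6

open Pool.Agent.T5

theorem allTWE : TWE_stmt := allTWE0 ENU

theorem allGDT : GDT_stmt := allGDT1 ENU

end Pool.Agent.T6
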