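import Pool.Agent.helper95.T6.AllE0
import Pool.Agent.helper96.T6.ELB

set_option autoImplicit false

/-! # T6L, block E assembled (all rows except ENU) -/

namespace Pool.Agent.T6

open Pool.Agent.T5

theorem allLBW : LBW_stmt := ELB allEPL allESN EPC ESZ ENL allLFS

theorem allGDT1 (hENU : ENU_stmt) : GDT_stmt := EGD allEBX allLBW (allTWE0 hENU)

end Pool.Agent.T6
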