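import Pool.Agent.helper82.T6.All
import Pool.Agent.helper16.T6.ECB
import Pool.Agent.helper20.T6.EBX
import Pool.Agent.helper25.T6.EPN
import Pool.Agent.helper28.T6.ESZ
import Pool.Agent.helper29.T6.EPC
import Pool.Agent.helper41.T6.END
import Pool.Agent.helper42.T6.EDI
import Pool.Agent.helper44.T6.ESN
import Pool.Agent.helper47.T6.EPU
import Pool.Agent.helper48.T6.EPL
import Pool.Agent.helper50.T6.ECA
import Pool.Agent.helper51.T6.ENL
import Pool.Agent.helper67.T6.EUB
import Pool.Agent.helper71.T6.EMI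
import Pool.Agent.helper72.T6.EGD
import Pool.Agent.helper8.T5.CZ
import Pool.Agent.helper92.T5.SZ
import Pool.Agent.helper59.T5.CBR

set_option autoImplicit false

/-!
# T6L, block E assembled (all rows except ENU and ELB)

`allGDT0`: `GDT_stmt` from ENU and ELB.
-/

namespace Pool.Agent.T6

open Pool.Agent.T5

theorem allEBX : EBX_stmt := EBX

theorem allEDI : EDI_stmt := EDI

theorem allEPU : EPU_stmt := EPU ECA WFJ WWY

theorem allEPL : EPL_stmt := EPL ECB EMI WWY

theorem allEND : END_stmt := END WDM allGP allGR allN1 allN2 allN4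

theorem allESN : ESN_stmt := ESN allEND allWSM WDL

theorem allTWE0 (hENU : ENU_stmt) : TWE_stmt :=
  EUB allEPU allESN EPN ESZ hENU (CZ (SZ TR)) (CBR DYB (CZ (SZ TR))) allLFS

theorem allGDT0 (hENU : ENU_stmt)
    (hELB : EPL_stmt → ESN_stmt → EPC_stmt → ESZ_stmt → ENL_stmt → ELB_stmt) : GDT_stmt :=
  EGD allEBX (hELB allEPL allESN EPC ESZ ENL allLFS) (allTWE0 hENU)

end Pool.Agent.T6
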