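import Pool.Agent.helper82.T6.SpecW
import Pool.Agent.helper43.T5.RE1
import Pool.Agent.helper71.T5.RE2
import Pool.Agent.helper11.T5.TR

/-!
# T6, row WCL: the classes of a pair as one congruence
-/

set_option autoImplicit false

namespace Pool.Agent.T6

open Finset Pool.Agent.helper3.FT Pool.Agent.T5

theorem WCL_inv (a Q : ℤ) (h : IsCoprime a Q) : ∃ x j : ℤ, a * x = 1 + Q * j := by
  obtain ⟨u, v, huv⟩ := h
  exact ⟨u, -v, by linear_combination huv⟩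

theorem WCL_mul (es n : ℕ) (hes : 1 ≤ es) : e2 es n * e1 es n = es := by
  unfold e1 e2
  rw [Finset.prod_filter_mul_prod_filter_not]
  exact Nat.factorization_prod_pow_eq_self (by omega)

theorem WCL_cop_s (es n : ℕ) : Nat.Coprime n (e1 es n) := by
  unfold e1
  refine Nat.Coprime.prod_right ?_
  intro p hp
  rw [Finset.mem_filter] at hp
  have hpp : p.Prime := Nat.prime_of_mem_primeFactors hp.1
  exact Nat.Coprime.pow_right _ ((Nat.Prime.coprime_iff_not_dvd hpp).2 hp.2).symm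

theorem WCL_cop_r (es n k : ℕ) (h : Nat.Coprime n k) : Nat.Coprime (e2 es n) k := by
  unfold e2
  refine Nat.Coprime.prod_left ?_
  intro p hp
  rw [Finset.mem_filter] at hp
  exact Nat.Coprime.pow_left _ (Nat.Coprime.coprime_dvd_left hp.2 h)

theorem WCL : WCL_stmt := by
  intro n k er es hn hk her hes hnk hrs hnkr
  have hn0 : (n : ℤ) ≠ 0 := by exact_mod_cast (by omega : n ≠ 0)
  have hk0 : (k : ℤ) ≠ 0 := by exact_mod_cast (by omega : k ≠ 0)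
  have her0 : (er : ℤ) ≠ 0 := by exact_mod_cast (by omega : er ≠ 0)
  have hes0 : (es : ℤ) ≠ 0 := by exact_mod_cast (by omega : es ≠ 0)
  obtain ⟨r, hr⟩ : ∃ r : ℕ, r = e2 es n := ⟨_, rfl⟩
  obtain ⟨s, hs⟩ : ∃ s : ℕ, s = e1 es n := ⟨_, rfl⟩
  have hrs' : r * s = es := by rw [hr, hs]; exact WCL_mul es n hes
  have hrsZ : (r : ℤ) * s = es := by exact_mod_cast hrs'
  have c1 : Nat.Coprime r k := by rw [hr]; exact WCL_cop_r es n k hnk
  have c2 : Nat.Coprime r s := by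
    rw [hr]
    exact WCL_cop_r es n s (by rw [hs]; exact WCL_cop_s es n)
  have c3 : Nat.Coprime n s := by rw [hs]; exact WCL_cop_s es n
  have h1 : IsCoprime ((n : ℤ) * r) ((k : ℤ) * s) := by
    refine IsCoprime.mul_left ?_ ?_
    · exact (Nat.isCoprime_iff_coprime.2 hnk).mul_right (Nat.isCoprime_iff_coprime.2 c3)
    · exact (Nat.isCoprime_iff_coprime.2 c1).mul_right (Nat.isCoprime_iff_coprime.2 c2)
  obtain ⟨α, β, γ, hres⟩ := RE1 n k 1 1 r s h1 isCoprime_one_left isCoprime_one_left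
  have hresG : ResG n k 1 1 1 1 α β γ := by
    obtain ⟨a1, a2, a3, a4, a5, a6⟩ := hres
    have hd : (k : ℤ) * 1 ∣ (k : ℤ) * s := mul_dvd_mul_left _ (one_dvd _)
    have hd' : (n : ℤ) ^ 3 * 1 ∣ (n : ℤ) ^ 3 * r := mul_dvd_mul_left _ (one_dvd _)
    exact ⟨hd'.trans a1, hd'.trans a2, hd'.trans a3, hd.trans a4, hd.trans a5, hd.trans a6⟩
  refine ⟨α, β, γ, hresG, ?_⟩
  intro x
  obtain ⟨c₀, hc₀⟩ := RE2 n k 1 1 r s α β γ h1 isCoprime_one_left isCoprime_one_left hres x.c x.c'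
  -- the inverse of `er ^ 2`
  have hcopQ : IsCoprime ((er : ℤ) ^ 2) ((n : ℤ) ^ 3 * k * es) := by
    have h2 : IsCoprime ((n : ℤ) * k) (er : ℤ) := by
      have := Nat.isCoprime_iff_coprime.2 hnkr
      push_cast at this
      exact this
    have h5 : IsCoprime (n : ℤ) (er : ℤ) := IsCoprime.of_mul_left_left h2
    have h6 : IsCoprime (k : ℤ) (er : ℤ) := IsCoprime.of_mul_left_right h2
    have h7 : IsCoprime (er : ℤ) (es : ℤ) := Nat.isCoprime_iff_coprime.2 hrs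
    exact (((h5.symm.pow_right).mul_right h6.symm).mul_right h7).pow_left
  obtain ⟨P, j, hPj⟩ := WCL_inv _ _ hcopQ
  have hE : 0 < (er : ℤ) * es := by positivity
  obtain ⟨m₀, hm₀⟩ : ∃ m₀ : ℤ, m₀ = x.m % (er * es) := ⟨_, rfl⟩
  obtain ⟨g₀, hg₀⟩ : ∃ g₀ : ℤ, g₀ = x.g % (er * es) := ⟨_, rfl⟩
  obtain ⟨a, ha⟩ : ∃ a : ℝ, a = (1 + (n : ℝ) ^ 3 * k * es * j) := ⟨_, rfl⟩
  obtain ⟨b, hb⟩ : ∃ b : ℝ, b = - ((n : ℝ) ^ 3 * k * es * j) := ⟨_, rfl⟩
  refine ⟨m₀, g₀,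
    (a * (2 * α * m₀ + β * g₀) + b * x.v) * (er * es) / ((n : ℝ) ^ 3 * k * es * (er : ℝ) ^ 2),
    (a * (β * m₀ + 2 * γ * g₀) + b * x.w) * (er * es) / ((n : ℝ) ^ 3 * k * es * (er : ℝ) ^ 2),
    (a * (α * m₀ ^ 2 + β * m₀ * g₀ + γ * g₀ ^ 2 + c₀) + b * (x.u + x.v * m₀ + x.w * g₀)) /
      ((n : ℝ) ^ 3 * k * es * (er : ℝ) ^ 2), ?_, ?_, ?_, ?_, ?_⟩
  · rw [hm₀]
    exact Int.emod_nonneg _ hE.ne'
  · rw [hm₀]
    exact Int.emod_lt_of_pos _ hE
  · rw [hg₀]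
    exact Int.emod_nonneg _ hE.ne'
  · rw [hg₀]
    exact Int.emod_lt_of_pos _ hE
  · rintro ⟨⟨n', k'⟩, ⟨m, g, Z⟩⟩ ht h1' hC
    obtain ⟨rfl, rfl⟩ : n' = n ∧ k' = k := by simpa using h1'
    obtain ⟨-, t2, -, t4, -⟩ := TR _ ht
    obtain ⟨dm, dg, dc, dc', dz⟩ := hC
    simp only at t2 t4 dm dg dc dc' dz ⊢
    rw [← hs] at dc
    rw [← hr] at dc'
    have hQ : (n' : ℤ) ^ 3 * r * ((k' : ℤ) * s) ∣ Z - (α * m ^ 2 + β * m * g + γ * g ^ 2 + c₀) := by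
      rw [hc₀]
      constructor
      · have h2 : 1 * Z * (k' : ℤ) ^ 4 + 1 * m * g * (k' : ℤ) ^ 2 - 1 * g ^ 2 * (n' : ℤ) ^ 2 + (n' : ℤ) ^ 3 * x.c' =
            -((n' : ℤ) ^ 3 * (RR' ((n', k'), (m, g, Z)) - x.c')) := by linear_combination t4
        rw [h2]
        exact (dvd_neg).2 (mul_dvd_mul_left _ dc')
      · have h2 : 1 * Z * (n' : ℤ) ^ 2 - 1 * m ^ 2 - k' * x.c = (k' : ℤ) * (RR ((n', k'), (m, g, Z)) - x.c) := by
          linear_combination -t2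
        rw [h2]
        exact mul_dvd_mul_left _ dc
    obtain ⟨w, hw⟩ := hQ
    have hw' : Z - (α * m ^ 2 + β * m * g + γ * g ^ 2 + c₀) = (n' : ℤ) ^ 3 * k' * es * w := by
      rw [hw, ← hrsZ]; ring
    obtain ⟨y, hy⟩ := dz
    obtain ⟨m', hm'⟩ : (er : ℤ) * es ∣ m - m₀ := by
      have h2 : (er : ℤ) * es ∣ x.m - m₀ := by rw [hm₀]; exact Int.dvd_self_sub_emod
      have h3 : m - m₀ = (m - x.m) + (x.m - m₀) := by ring
      rw [h3]
      refine dvd_add ?_ h2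
      have := dm
      push_cast at this
      exact this
    obtain ⟨g', hg'⟩ : (er : ℤ) * es ∣ g - g₀ := by
      have h2 : (er : ℤ) * es ∣ x.g - g₀ := by rw [hg₀]; exact Int.dvd_self_sub_emod
      have h3 : g - g₀ = (g - x.g) + (x.g - g₀) := by ring
      rw [h3]
      refine dvd_add ?_ h2
      have := dg
      push_cast at this
      exact this
    have hm'' : m = m₀ + er * es * m' := by linear_combination hm'
    have hg'' : g = g₀ + er * es * g' := by linear_combination hg'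
    obtain ⟨z', hz'⟩ : ∃ z' : ℤ, Z = (1 + (n' : ℤ) ^ 3 * k' * es * j) * (α * m ^ 2 + β * m * g + γ * g ^ 2 + c₀) +
        (-((n' : ℤ) ^ 3 * k' * es * j)) * (x.u + x.v * m + x.w * g) + (n' : ℤ) ^ 3 * k' * es * (er : ℤ) ^ 2 * z' :=
      ⟨P * w - j * y, by
        linear_combination (1 + (n' : ℤ) ^ 3 * k' * es * j) * hw' - (n' : ℤ) ^ 3 * k' * es * j * hy -
          (n' : ℤ) ^ 3 * k' * es * w * hPj⟩
    refine ⟨m', g', hm'', hg'', z' + es ^ 2 * j * (α * m' ^ 2 + β * m' * g' + γ * g' ^ 2), ?_⟩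
    have hnR : (n' : ℝ) ≠ 0 := by exact_mod_cast hn0
    have hkR : (k' : ℝ) ≠ 0 := by exact_mod_cast hk0
    have hesR : (es : ℝ) ≠ 0 := by exact_mod_cast hes0
    have herR : (er : ℝ) ≠ 0 := by exact_mod_cast her0
    rw [hm'', hg''] at hz'
    have hzR : (Z : ℝ) = (1 + (n' : ℝ) ^ 3 * k' * es * j) * (α * (m₀ + er * es * m') ^ 2 +
        β * (m₀ + er * es * m') * (g₀ + er * es * g') + γ * (g₀ + er * es * g') ^ 2 + c₀) +
        (-((n' : ℝ) ^ 3 * k' * es * j)) * (x.u + x.v * (m₀ + er * es * m') + x.w * (g₀ + er * es * g')) +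
        (n' : ℝ) ^ 3 * k' * es * (er : ℝ) ^ 2 * z' := by exact_mod_cast hz'
    push_cast
    rw [hzR, ha, hb]
    field_simp
    ring

end Pool.Agent.T6
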